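import Pool.Agent.H38.O1.N3
import Pool.Agent.H38.O2.Main

set_option autoImplicit false

/-!
(K7): in a finite simple nonassociative automorphic loop of odd order `th(a, b)` fixes `b`.
-/

namespace ALoop

open Equiv

variable {Q : Type*} {G : Subgroup (Perm Q)} {L : Q → Perm Q} {J : Perm Q} {e : Q}

/-- the trick -/
theorem k7trick {M : Type*} [Group M] {l r l' r' : M} (h1 : l * r = r * l) (h2 : l * l' = l' * l)
    (h3 : r * r' = r' * r) (h4 : l' * r' = r' * l')
    (h5 : (l * r) * (l' * r') = (l' * r') * (l * r)) :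
    (l * r⁻¹) * (l' * r'⁻¹) = (l' * r'⁻¹) * (l * r⁻¹) := by
  obtain ⟨c, hc⟩ : ∃ c, c = (r' * l)⁻¹ * (l * r') := ⟨_, rfl⟩
  have e1 : l * r' = r' * l * c := by rw [hc]; group
  have e2 : (l * r') * (r * l') = (r' * l) * (l' * r) := by
    calc (l * r') * (r * l') = l * (r' * r) * l' := by group
      _ = l * r * (r' * l') := by rw [← h3]; group
      _ = (l * r) * (l' * r') := by rw [← h4]
      _ = (l' * r') * (l * r) := h5
      _ = (l' * r') * l * r := by group
      _ = r' * (l' * l) * r := by rw [h4]; group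
      _ = _ := by rw [← h2]; group
  have e3 : c * (r * l') = l' * r := by
    rw [hc]
    calc (r' * l)⁻¹ * (l * r') * (r * l') = (r' * l)⁻¹ * ((l * r') * (r * l')) := by group
      _ = _ := by rw [e2]; group
  have hc2 : c = (l' * r) * (r * l')⁻¹ := by rw [← e3]; group
  -- `c` commutes with `r`, `l'`
  have k1 : Commute c r := by
    rw [hc]
    have a1 : Commute r' r := h3.symm
    have a2 : Commute l r := h1
    exact ((a1.mul_left a2).inv_left).mul_left (a2.mul_left a1)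
  have k2 : Commute c l' := by
    rw [hc]
    have a1 : Commute r' l' := h4.symm
    have a2 : Commute l l' := h2
    exact ((a1.mul_left a2).inv_left).mul_left (a2.mul_left a1)
  have k3 : Commute c l := by
    rw [hc2]
    have a1 : Commute r l := h1.symm
    have a2 : Commute l' l := h2.symm
    exact (a2.mul_left a1).mul_left ((a1.mul_left a2).inv_left)
  have k4 : Commute c r' := by
    rw [hc2]
    have a1 : Commute r r' := h3
    have a2 : Commute l' r' := h4
    exact (a2.mul_left a1).mul_left ((a1.mul_left a2).inv_left)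
  have f1 : r'⁻¹ * l = c * (l * r'⁻¹) := by
    calc r'⁻¹ * l = r'⁻¹ * (l * r') * r'⁻¹ := by group
      _ = r'⁻¹ * (r' * l * c) * r'⁻¹ := by rw [e1]
      _ = (l * c) * r'⁻¹ := by group
      _ = _ := by rw [← k3.eq]; group
  have f2 : r⁻¹ * l' = c * (l' * r⁻¹) := by
    calc r⁻¹ * l' = r⁻¹ * (l' * r) * r⁻¹ := by group
      _ = r⁻¹ * (c * (r * l')) * r⁻¹ := by rw [e3]
      _ = r⁻¹ * (c * r) * l' * r⁻¹ := by group
      _ = _ := by rw [k1.eq]; group
  have g1 : r⁻¹ * r'⁻¹ = r'⁻¹ * r⁻¹ := by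
    rw [← mul_inv_rev, ← mul_inv_rev, h3]
  have g2 : l' * r'⁻¹ = r'⁻¹ * l' := by
    rw [mul_inv_eq_iff_eq_mul, mul_assoc, h4]; group
  have g3 : c * (l * r'⁻¹) = (l * r'⁻¹) * c := by
    have := (k3.mul_right (k4.inv_right)).eq
    exact this
  calc (l * r⁻¹) * (l' * r'⁻¹) = l * r⁻¹ * (r'⁻¹ * l') := by rw [g2]
    _ = l * (r⁻¹ * r'⁻¹) * l' := by group
    _ = (l * r'⁻¹) * (r⁻¹ * l') := by rw [g1]; group
    _ = (l * r'⁻¹) * c * (l' * r⁻¹) := by rw [f2]; group
    _ = (r'⁻¹ * l) * (l' * r⁻¹) := by rw [← g3, ← f1]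
    _ = r'⁻¹ * (l * l') * r⁻¹ := by group
    _ = r'⁻¹ * l' * (l * r⁻¹) := by rw [h2]; group
    _ = _ := by rw [← g2]

namespace AL0

/-- `a(b, u)` is an inner mapping and fixes `b` -/
theorem k7a (h : AL0 G L J e) (b u : Q) :
    (L (L b u))⁻¹ * L b * L u ∈ G ∧ ((L (L b u))⁻¹ * L b * L u) e = e ∧
      ((L (L b u))⁻¹ * L b * L u) b = b := by
  refine ⟨G.mul_mem (G.mul_mem (G.inv_mem (h.memL _)) (h.memL _)) (h.memL _), ?_, ?_⟩
  · simp only [Perm.mul_apply]
    rw [h.Le, Perm.inv_eq_iff_eq, h.Le]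
  · simp only [Perm.mul_apply]
    rw [h.flex', Perm.inv_eq_iff_eq]

/-- everything about `l = L_b⁻¹ L_(t b)`, `t = th(a, b)` -/
theorem k7data (h : AL0 G L J e) (a b : Q) : ∃ t l r : Perm Q,
    t = Th L J a b ∧ l = (L b)⁻¹ * L (t b) ∧ r = J * l * J ∧
    t * L b = L (t b) * t ∧ (L b)⁻¹ * t * L b = l * t ∧
    t * l = l * t ∧ l * r = r * l ∧
    l * r = (Tx L J b)⁻¹ * t * Tx L J b * t⁻¹ := by
  obtain ⟨t, ht⟩ : ∃ t, t = Th L J a b := ⟨_, rfl⟩
  obtain ⟨T, hT⟩ : ∃ T, T = Tx L J b := ⟨_, rfl⟩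
  obtain ⟨R, hR⟩ : ∃ R, R = Rt L J b := ⟨_, rfl⟩
  obtain ⟨R', hR'⟩ : ∃ R', R' = Rt L J (J b) := ⟨_, rfl⟩
  have htG : t ∈ G := by rw [ht]; exact h.Th_mem a b
  have hte : t e = e := by rw [ht]; exact h.Th_e a b
  have htJ : t * J = J * t := h.comJ t htG hte
  have hJJ := h.JJ1
  obtain ⟨t2, ht2⟩ : ∃ t2, t2 = T⁻¹ * t * T := ⟨_, rfl⟩
  have hTJ : T * J = J * T := by rw [hT]; exact h.Tx_J b
  have ht2J : t2 * J = J * t2 := by
    have h1 : T⁻¹ * J = J * T⁻¹ := by
      rw [inv_mul_eq_iff_eq_mul]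
      calc J = J * T * T⁻¹ := by group
        _ = _ := by rw [← hTJ]; group
    rw [ht2]
    calc T⁻¹ * t * T * J = T⁻¹ * t * (T * J) := by group
      _ = T⁻¹ * (t * J) * T := by rw [hTJ]; group
      _ = (T⁻¹ * J) * t * T := by rw [htJ]; group
      _ = _ := by rw [h1]; group
  -- `L_a⁻¹ R_b L_a = R_b t⁻¹`, `L_a⁻¹ R_b' L_a = R_b' t2`
  have a1 : (L a)⁻¹ * R * L a = R * t⁻¹ := by
    rw [ht, hR]; unfold Th; group
  have a2 : (L a)⁻¹ * R' * L a = R' * t2 := by
    have k1 := h.K1 a b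
    rw [← hT, ← ht] at k1
    have k2 : t2 = (Th L J a (J b))⁻¹ := by
      rw [ht2]
      calc T⁻¹ * t * T = T⁻¹ * (t * T) := by group
        _ = T⁻¹ * (T * (Th L J a (J b))⁻¹) := by rw [k1]
        _ = _ := by group
    rw [k2, hR']; unfold Th; group
  have hRR : R * R' = R' * R := by rw [hR, hR']; exact h.RRJ b
  have hTR : L b = T * R := by rw [hT, hR]; exact h.L_eq b
  obtain ⟨mu, hmu⟩ : ∃ mu, mu = R * R' := ⟨_, rfl⟩
  obtain ⟨z, hz⟩ : ∃ z, z = (L b)⁻¹ * t * L b := ⟨_, rfl⟩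
  obtain ⟨y, hy⟩ : ∃ y, y = R'⁻¹ * t * R' := ⟨_, rfl⟩
  have hyz : y = J * z * J := by
    have h1 : R' = J * L b * J := by rw [hR', h.JLJ]
    rw [hy, hz, h1]
    simp only [mul_inv_rev, h.Jinv]
    calc J * ((L b)⁻¹ * J) * t * (J * L b * J) = J * (L b)⁻¹ * (J * t) * J * L b * J := by group
      _ = J * (L b)⁻¹ * (t * J) * J * L b * J := by rw [htJ]
      _ = J * (L b)⁻¹ * t * (J * J) * L b * J := by group
      _ = _ := by rw [hJJ]; group
  -- `L_a⁻¹ mu L_a = mu y⁻¹ t2 = mu z t⁻¹`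
  have b1 : (L a)⁻¹ * mu * L a = mu * (y⁻¹ * t2) := by
    calc (L a)⁻¹ * mu * L a = ((L a)⁻¹ * R * L a) * ((L a)⁻¹ * R' * L a) := by rw [hmu]; group
      _ = R * t⁻¹ * (R' * t2) := by rw [a1, a2]
      _ = _ := by rw [hmu, hy]; group
  have b2 : (L a)⁻¹ * mu * L a = mu * (z * t⁻¹) := by
    calc (L a)⁻¹ * mu * L a = ((L a)⁻¹ * R' * L a) * ((L a)⁻¹ * R * L a) := by
          rw [hmu, hRR]; group
      _ = R' * t2 * (R * t⁻¹) := by rw [a1, a2]
      _ = (R' * R) * ((T * R)⁻¹ * t * (T * R)) * t⁻¹ := by rw [ht2]; group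
      _ = _ := by rw [← hRR, ← hTR, ← hmu, ← hz]; group
  have b3 : y⁻¹ * t2 = z * t⁻¹ := by
    have := b1.symm.trans b2
    exact mul_left_cancel this
  have b4 : t2 = y * z * t⁻¹ := by
    calc t2 = y * (y⁻¹ * t2) := by group
      _ = _ := by rw [b3]; group
  have b5 : t2 = z * y * t⁻¹ := by
    have h1 : t2 = J * t2 * J := by rw [← ht2J, mul_assoc, hJJ, mul_one]
    have h2 : z = J * y * J := by
      rw [hyz]
      calc z = 1 * z * 1 := by group
        _ = (J * J) * z * (J * J) := by rw [hJJ]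
        _ = _ := by group
    have hti : J * t⁻¹ * J = t⁻¹ := by
      have h3 : t⁻¹ * J = J * t⁻¹ := by
        rw [inv_mul_eq_iff_eq_mul]
        calc J = J * t * t⁻¹ := by group
          _ = _ := by rw [← htJ]; group
      rw [← h3, mul_assoc, hJJ, mul_one]
    calc t2 = J * (y * z * t⁻¹) * J := by rw [← b4]; exact h1
      _ = J * y * 1 * z * 1 * t⁻¹ * J := by group
      _ = J * y * (J * J) * z * (J * J) * t⁻¹ * J := by rw [hJJ]
      _ = (J * y * J) * (J * z * J) * (J * t⁻¹ * J) := by group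
      _ = _ := by rw [← hyz, ← h2, hti]
  have hzy : z * y = y * z := by
    have := b5.symm.trans b4
    exact mul_right_cancel this
  obtain ⟨l, hl⟩ : ∃ l, l = z * t⁻¹ := ⟨_, rfl⟩
  have hl2 : l = (L b)⁻¹ * L (t b) := by
    rw [hl, hz, ← h.equi t htG hte b]; group
  have hl3 : l = mu⁻¹ * ((L a)⁻¹ * mu * L a) := by rw [b2, hl]; group
  have hmuG : mu ∈ G := by rw [hmu, hR, hR']; exact G.mul_mem (h.memR _) (h.memR _)
  have hmue : mu e = e := by
    rw [hmu, hR, hR', Perm.mul_apply, h.Rt_e, h.Rt_app, h.JL]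
  obtain ⟨a', ha'⟩ : ∃ a', a' = mu⁻¹ a := ⟨_, rfl⟩
  have hmue' : mu⁻¹ e = e := by rw [Perm.inv_eq_iff_eq, hmue]
  have hl4 : l = (L a')⁻¹ * L a := by
    have h1 := h.equi mu⁻¹ (G.inv_mem hmuG) hmue' a
    rw [hl3, ha', ← h1]; group
  obtain ⟨u, hu⟩ : ∃ u, u = l e := ⟨_, rfl⟩
  have hbu : L b u = t b := by
    rw [hu, hl2, Perm.mul_apply, h.Le, apply_inv']
  have hau : L a' u = a := by
    rw [hu, hl4, Perm.mul_apply, h.Le, apply_inv']
  obtain ⟨k, hk⟩ : ∃ k, k = l⁻¹ * L u := ⟨_, rfl⟩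
  have hk1 : k = (L (L b u))⁻¹ * L b * L u := by rw [hk, hl2, hbu]; group
  have hk2 : k = (L (L a' u))⁻¹ * L a' * L u := by rw [hk, hl4, hau]; group
  obtain ⟨kG, ke, kb⟩ := h.k7a b u
  rw [← hk1] at kG ke kb
  have ka' : k a' = a' := by rw [hk2]; exact (h.k7a a' u).2.2
  have kR : k * R = R * k := by rw [hR]; exact h.comR kG ke kb
  have kR' : k * R' = R' * k := by rw [hR']; exact h.comR kG ke (h.fixJ kG ke kb)
  have ka : k a = a := by
    have h1 : mu a' = a := by rw [ha', apply_inv']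
    have h2 : k * mu = mu * k := by
      rw [hmu]
      calc k * (R * R') = (k * R) * R' := by group
        _ = R * (k * R') := by rw [kR]; group
        _ = _ := by rw [kR']; group
    have h3 := congrArg (fun p : Perm Q => p a') h2
    simp only [Perm.mul_apply] at h3
    rwa [h1, ka', h1] at h3
  have kLa : k * L a = L a * k := h.comL kG ke ka
  have kt : k * t = t * k := by
    have c1 : Commute k (L a) := kLa
    have c2 : Commute k (Rt L J b) := by rw [← hR]; exact kR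
    rw [ht]; unfold Th
    exact (((c1.inv_right.mul_right c2.inv_right).mul_right c1).mul_right c2).eq
  have ktb : k (t b) = t b := by
    have h3 := congrArg (fun p : Perm Q => p b) kt
    simp only [Perm.mul_apply] at h3
    rw [h3, kb]
  have ku : k u = u := by
    have h1 := h.aut kG ke b u
    rw [hbu, ktb, kb] at h1
    apply (L b).injective
    rw [hbu, ← h1]
  have hlk : l = L u * k⁻¹ := by rw [hk]; group
  have kLu : k * L u = L u * k := h.comL kG ke ku
  have hzl : z = l * t := by rw [hl]; group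
  -- `t` fixes `u`
  have tu : t u = u := by
    have c0 : y * z = t2 * t := by rw [b4]; group
    have c1 : (y * z) e = e := by
      rw [c0, ht2]
      simp only [Perm.mul_apply]
      rw [hte, hT, h.Tx_e, hte, Perm.inv_eq_iff_eq, h.Tx_e]
    have c2 : y = Rt L J (J u) * (k⁻¹ * t) := by
      rw [hyz, hzl, hlk]
      have h1 : Rt L J (J u) = J * L u * J := (h.JLJ u).symm
      have h2 : k * J = J * k := h.comJ k kG ke
      have h3 : k⁻¹ * J = J * k⁻¹ := by
        rw [inv_mul_eq_iff_eq_mul]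
        calc J = J * k * k⁻¹ := by group
          _ = _ := by rw [← h2]; group
      rw [h1]
      calc J * (L u * k⁻¹ * t) * J = J * L u * k⁻¹ * (t * J) := by group
        _ = J * L u * (k⁻¹ * J) * t := by rw [htJ]; group
        _ = _ := by rw [h3]; group
    have c3 : z e = u := by
      rw [hzl, Perm.mul_apply, hte, hu]
    rw [Perm.mul_apply, c3, c2] at c1
    simp only [Perm.mul_apply] at c1
    have c4 : Rt L J (J u) u = e := by rw [h.Rt_app, h.LJ]
    have c5 := (Rt L J (J u)).injective (c1.trans c4.symm)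
    rw [Perm.inv_eq_iff_eq] at c5
    rw [c5, ku]
  have tLu : t * L u = L u * t := h.comL htG hte tu
  have tk : Commute t k := kt.symm
  have tl : Commute t l := by
    rw [hlk]
    exact (show Commute t (L u) from tLu).mul_right tk.inv_right
  have tz : Commute t z := by rw [hzl]; exact tl.mul_right (Commute.refl t)
  have hr : J * l * J = y * t⁻¹ := by
    have hti : J * t⁻¹ * J = t⁻¹ := by
      have h3 : t⁻¹ * J = J * t⁻¹ := by
        rw [inv_mul_eq_iff_eq_mul]
        calc J = J * t * t⁻¹ := by group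
          _ = _ := by rw [← htJ]; group
      rw [← h3, mul_assoc, hJJ, mul_one]
    rw [hl]
    calc J * (z * t⁻¹) * J = J * z * 1 * t⁻¹ * J := by group
      _ = J * z * (J * J) * t⁻¹ * J := by rw [hJJ]
      _ = (J * z * J) * (J * t⁻¹ * J) := by group
      _ = _ := by rw [← hyz, hti]
  have ty : Commute t y := by
    rw [hyz]
    have tJ : Commute t J := htJ
    exact (tJ.mul_right tz).mul_right tJ
  have zy : Commute z y := hzy
  have lr : Commute l (y * t⁻¹) := by
    rw [hl]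
    exact (zy.mul_right tz.symm.inv_right).mul_left
      ((ty.inv_left).mul_right ((Commute.refl t).inv_left.inv_right))
  refine ⟨t, l, J * l * J, ht, hl2, rfl, ?_, ?_, tl.eq, ?_, ?_⟩
  · have := h.equi t htG hte b
    rw [mul_inv_eq_iff_eq_mul] at this
    exact this
  · rw [← hz, hzl]
  · rw [hr]; exact lr.eq
  · rw [hr, ← hT, ← ht2, b5, hl]
    have h1 : t⁻¹ * y = y * t⁻¹ := (ty.inv_left).eq
    calc z * t⁻¹ * (y * t⁻¹) = z * (t⁻¹ * y) * t⁻¹ := by group
      _ = _ := by rw [h1]; group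

end AL0

namespace AL

/-- `l` commutes with `D_x l D_x` -/
theorem k7line (h : AL G L J e) {a b : Q} {t l r : Perm Q}
    (ht : t = Th L J a b) (hr : r = J * l * J) (h1 : t * L b = L (t b) * t)
    (h2 : (L b)⁻¹ * t * L b = l * t) (h3 : t * l = l * t) (h4 : l * r = r * l) (x : Q) :
    l * (D L J x * l * D L J x) = (D L J x * l * D L J x) * l := by
  have h0 := h.al0
  have hJJ := h.JJ1
  have htG : t ∈ G := by rw [ht]; exact h0.Th_mem a b
  have hte : t e = e := by rw [ht]; exact h0.Th_e a b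
  -- `L_(t b) = L_b l`, `L_(t² b) = L_b l²`
  have e1 : L (t b) = L b * l := by
    calc L (t b) = (L (t b) * t) * t⁻¹ := by group
      _ = L b * ((L b)⁻¹ * t * L b) * t⁻¹ := by rw [← h1]; group
      _ = L b * l := by rw [h2]; group
  have e2 : L (t (t b)) = L b * l * l := by
    have := h0.equi t htG hte (t b)
    rw [← this, e1]
    calc t * (L b * l) * t⁻¹ = (t * L b) * l * t⁻¹ := by group
      _ = (L b * l * t) * l * t⁻¹ := by rw [h1, e1]
      _ = L b * l * (t * l) * t⁻¹ := by group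
      _ = _ := by rw [h3]; group
  have eJ : l * J * l⁻¹ = l * r⁻¹ * J := by
    rw [hr, mul_inv_rev, mul_inv_rev, h.Jinv]
    calc l * J * l⁻¹ = l * J * l⁻¹ * 1 := by group
      _ = l * J * l⁻¹ * (J * J) := by rw [hJJ]
      _ = _ := by group
  -- the rotation along the line
  obtain ⟨P, hP⟩ : ∃ P, P = L b * (l * r⁻¹) * (L b)⁻¹ := ⟨_, rfl⟩
  have hlr : Commute l (l * r⁻¹) := (Commute.refl l).mul_right ((show Commute l r from h4).inv_right)
  have d1 : D L J (t b) = P * D L J b := by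
    unfold D
    rw [e1, hP]
    calc L b * l * J * (L b * l)⁻¹ = L b * (l * J * l⁻¹) * (L b)⁻¹ := by group
      _ = L b * (l * r⁻¹ * J) * (L b)⁻¹ := by rw [eJ]
      _ = _ := by group
  have d2 : D L J (t (t b)) = P * P * D L J b := by
    unfold D
    rw [e2, hP]
    calc L b * l * l * J * (L b * l * l)⁻¹ = L b * l * (l * J * l⁻¹) * l⁻¹ * (L b)⁻¹ := by group
      _ = L b * l * (l * r⁻¹ * J) * l⁻¹ * (L b)⁻¹ := by rw [eJ]
      _ = L b * (l * (l * r⁻¹)) * J * l⁻¹ * (L b)⁻¹ := by group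
      _ = L b * ((l * r⁻¹) * l) * J * l⁻¹ * (L b)⁻¹ := by rw [hlr.eq]
      _ = L b * (l * r⁻¹) * (l * J * l⁻¹) * (L b)⁻¹ := by group
      _ = L b * (l * r⁻¹) * (l * r⁻¹ * J) * (L b)⁻¹ := by rw [eJ]
      _ = _ := by group
  -- translate by `R_x`
  obtain ⟨R, hR⟩ : ∃ R, R = Rt L J x := ⟨_, rfl⟩
  have hRG : R ∈ G := by rw [hR]; exact h0.memR x
  have hRa : ∀ y, R y = L y x := by intro y; rw [hR]; exact h0.Rt_app x y
  have g1 : L b * l * D L J x * (L b * l)⁻¹ = R * P * D L J b * R⁻¹ := by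
    have q1 := h.D_conj (h.memL (t b)) x
    have q2 := h.D_conj hRG (t b)
    rw [hRa] at q2
    rw [← e1, q1, ← q2, d1]; group
  have g2 : L b * l * l * D L J x * (L b * l * l)⁻¹ = R * P * P * D L J b * R⁻¹ := by
    have q1 := h.D_conj (h.memL (t (t b))) x
    have q2 := h.D_conj hRG (t (t b))
    rw [hRa] at q2
    rw [← e2, q1, ← q2, d2]; group
  have g0 : L b * D L J x * (L b)⁻¹ = R * D L J b * R⁻¹ := by
    have q1 := h.D_conj (h.memL b) x
    have q2 := h.D_conj hRG b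
    rw [hRa] at q2
    rw [q1, ← q2]
  obtain ⟨W, hW⟩ : ∃ W, W = (L b)⁻¹ * R * P * R⁻¹ * L b := ⟨_, rfl⟩
  have w1 : l * D L J x * l⁻¹ = W * D L J x := by
    calc l * D L J x * l⁻¹ = (L b)⁻¹ * (L b * l * D L J x * (L b * l)⁻¹) * L b := by group
      _ = (L b)⁻¹ * (R * P * D L J b * R⁻¹) * L b := by rw [g1]
      _ = (L b)⁻¹ * R * P * R⁻¹ * (R * D L J b * R⁻¹) * L b := by group
      _ = (L b)⁻¹ * R * P * R⁻¹ * (L b * D L J x * (L b)⁻¹) * L b := by rw [g0]
      _ = _ := by rw [hW]; group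
  have w2 : l * l * D L J x * l⁻¹ * l⁻¹ = W * W * D L J x := by
    calc l * l * D L J x * l⁻¹ * l⁻¹ =
        (L b)⁻¹ * (L b * l * l * D L J x * (L b * l * l)⁻¹) * L b := by group
      _ = (L b)⁻¹ * (R * P * P * D L J b * R⁻¹) * L b := by rw [g2]
      _ = (L b)⁻¹ * R * P * P * R⁻¹ * (R * D L J b * R⁻¹) * L b := by group
      _ = (L b)⁻¹ * R * P * P * R⁻¹ * (L b * D L J x * (L b)⁻¹) * L b := by rw [g0]
      _ = _ := by rw [hW]; group
  obtain ⟨E, hE⟩ : ∃ E, E = D L J x := ⟨_, rfl⟩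
  have hEE : E * E = 1 := by rw [hE]; exact h.D_sq x
  rw [← hE] at w1 w2 ⊢
  obtain ⟨m, hm⟩ : ∃ m, m = E * l⁻¹ * E := ⟨_, rfl⟩
  have v1 : W = l * m := by
    calc W = W * (E * E) := by rw [hEE, mul_one]
      _ = (W * E) * E := by group
      _ = _ := by rw [← w1, hm]; group
  have v2 : W * W = l * l * m * m := by
    calc W * W = W * W * (E * E) := by rw [hEE, mul_one]
      _ = (W * W * E) * E := by group
      _ = l * l * E * l⁻¹ * 1 * l⁻¹ * E := by rw [← w2]; group
      _ = l * l * E * l⁻¹ * (E * E) * l⁻¹ * E := by rw [hEE]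
      _ = _ := by rw [hm]; group
  have v3 : m * l = l * m := by
    rw [v1] at v2
    calc m * l = l⁻¹ * ((l * m) * (l * m)) * m⁻¹ := by group
      _ = l⁻¹ * (l * l * m * m) * m⁻¹ := by rw [v2]
      _ = _ := by group
  have v4 : E * l * E = m⁻¹ := by
    have hEi : E⁻¹ = E := inv_eq_of_mul_eq_one_left hEE
    rw [hm, mul_inv_rev, mul_inv_rev, inv_inv, hEi]; group
  rw [v4]
  have v5 : Commute l m := v3.symm
  exact v5.inv_right.eq

/-- (K7) -/
theorem k7of [Finite Q] (h : AL G L J e) (hna : ¬ Assoc L) (hfix : ∀ x, J x = x → x = e)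
    (a b : Q)
    (heta : ∀ x, (Tx L J (Th L J a b b) * (Tx L J b)⁻¹) *
      (D L J x * (Tx L J (Th L J a b b) * (Tx L J b)⁻¹) * D L J x) =
      (D L J x * (Tx L J (Th L J a b b) * (Tx L J b)⁻¹) * D L J x) *
      (Tx L J (Th L J a b b) * (Tx L J b)⁻¹)) :
    Th L J a b b = b := by
  have h0 := h.al0
  have hJJ := h.JJ1
  obtain ⟨t, l, r, ht, hl, hr, c1, c2, c3, c4, c5⟩ := h0.k7data a b
  have htG : t ∈ G := by rw [ht]; exact h0.Th_mem a b
  have hte : t e = e := by rw [ht]; exact h0.Th_e a b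
  obtain ⟨T, hT⟩ : ∃ T, T = Tx L J b := ⟨_, rfl⟩
  have hTG : T ∈ G := by rw [hT]; exact h0.Tx_mem b
  -- `l r = T⁻¹ eta T`
  have hTt : Tx L J (t b) = t * T * t⁻¹ := by
    have q1 := h0.equi t htG hte b
    have q2 : t * Rt L J b * t⁻¹ = Rt L J (t b) := by
      unfold Rt
      have q3 := h0.equi t htG hte (J b)
      have q4 : t (J b) = J (t b) := by
        have := congrArg (fun p : Perm Q => p b) (h.comJ t htG hte)
        simpa using this
      rw [q4] at q3
      have q5 := h.comJ t htG hte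
      have q6 : J * t⁻¹ = t⁻¹ * J := by
        rw [eq_inv_mul_iff_mul_eq]
        calc t * (J * t⁻¹) = (t * J) * t⁻¹ := by group
          _ = J := by rw [q5]; group
      rw [← q3]
      calc t * (J * L (J b) * J) * t⁻¹ = (t * J) * L (J b) * (J * t⁻¹) := by group
        _ = _ := by rw [q5, q6]; group
    rw [hT]; unfold Tx
    rw [← q1, ← q2]; group
  rw [← hT, ← ht, hTt] at heta
  rw [← hT] at c5
  have hlr : l * r = T⁻¹ * (t * T * t⁻¹ * T⁻¹) * T := by rw [c5]; group
  have hcom5 : ∀ x, (l * r) * (D L J x * (l * r) * D L J x) =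
      (D L J x * (l * r) * D L J x) * (l * r) := by
    intro x
    have q1 := h.D_conj hTG x
    have q2 := heta (T x)
    rw [← q1] at q2
    obtain ⟨et, het⟩ : ∃ et, et = t * T * t⁻¹ * T⁻¹ := ⟨_, rfl⟩
    rw [← het] at q2 hlr
    rw [hlr]
    calc T⁻¹ * et * T * (D L J x * (T⁻¹ * et * T) * D L J x) =
        T⁻¹ * (et * (T * D L J x * T⁻¹ * et * (T * D L J x * T⁻¹))) * T := by group
      _ = T⁻¹ * ((T * D L J x * T⁻¹ * et * (T * D L J x * T⁻¹)) * et) * T := by rw [q2]
      _ = _ := by group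
  have hl' := h.k7line ht hr c1 c2 c3 c4
  have hr' : ∀ x, r * (D L J x * r * D L J x) = (D L J x * r * D L J x) * r := by
    intro x
    have q1 := hl' (J x)
    rw [← h.D_J x] at q1
    rw [hr]
    have k1 : J * l * J * (D L J x * (J * l * J) * D L J x) =
        J * (l * (J * D L J x * J * l * (J * D L J x * J))) * J := by
      calc J * l * J * (D L J x * (J * l * J) * D L J x) =
          J * l * (J * D L J x * J) * l * J * D L J x * 1 := by group
        _ = J * l * (J * D L J x * J) * l * J * D L J x * (J * J) := by rw [hJJ]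
        _ = _ := by group
    have k2 : (D L J x * (J * l * J) * D L J x) * (J * l * J) =
        J * ((J * D L J x * J * l * (J * D L J x * J)) * l) * J := by
      calc (D L J x * (J * l * J) * D L J x) * (J * l * J) =
          1 * D L J x * (J * l * J) * D L J x * (J * l * J) := by group
        _ = (J * J) * D L J x * (J * l * J) * D L J x * (J * l * J) := by rw [hJJ]
        _ = _ := by group
    rw [k1, k2, q1]
  have htr : ∀ x, (l * r⁻¹) * (D L J x * (l * r⁻¹) * D L J x) =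
      (D L J x * (l * r⁻¹) * D L J x) * (l * r⁻¹) := by
    intro x
    obtain ⟨E, hE⟩ : ∃ E, E = D L J x := ⟨_, rfl⟩
    have hEE : E * E = 1 := by rw [hE]; exact h.D_sq x
    have p5 := hcom5 x
    have p2 := hl' x
    have p3 := hr' x
    rw [← hE] at p5 p2 p3 ⊢
    have m1 : E * (l * r) * E = (E * l * E) * (E * r * E) := by
      calc E * (l * r) * E = E * l * 1 * r * E := by group
        _ = E * l * (E * E) * r * E := by rw [hEE]
        _ = _ := by group
    have hEi : E⁻¹ = E := inv_eq_of_mul_eq_one_left hEE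
    have m2 : E * (l * r⁻¹) * E = (E * l * E) * (E * r * E)⁻¹ := by
      rw [mul_inv_rev, mul_inv_rev, hEi]
      calc E * (l * r⁻¹) * E = E * l * 1 * r⁻¹ * E := by group
        _ = E * l * (E * E) * r⁻¹ * E := by rw [hEE]
        _ = _ := by group
    have m4 : (E * l * E) * (E * r * E) = (E * r * E) * (E * l * E) := by
      calc (E * l * E) * (E * r * E) = E * (l * r) * E := m1.symm
        _ = E * (r * l) * E := by rw [c4]
        _ = E * r * 1 * l * E := by group
        _ = E * r * (E * E) * l * E := by rw [hEE]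
        _ = _ := by group
    rw [m2]
    rw [m1] at p5
    exact k7trick c4 p2 p3 m4 p5
  -- `l r⁻¹ = D_u J` with `u = l e`
  have hlG : l ∈ G := by rw [hl]; exact G.mul_mem (G.inv_mem (h.memL _)) (h.memL _)
  have hPu : l * r⁻¹ = D L J (l e) * D L J e := by
    have q1 := h.D_conj hlG e
    rw [← q1, h.D_e, hr, mul_inv_rev, mul_inv_rev, h.Jinv]; group
  obtain ⟨n, hn, hn1⟩ := h.odd_DD hfix (l e) e
  have hcl : l * r⁻¹ = 1 := by
    refine h.close hna (u := l * r⁻¹) (n := n) (r := e) ?_ hn ?_ ?_ htr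
    · rw [hPu]; exact h.D_mul_mem _ _
    · rw [hPu]; exact hn1
    · rw [h.D_e, mul_inv_rev, inv_inv, hr]
      have q1 : (J * l * J)⁻¹ = J * l⁻¹ * J := by
        rw [mul_inv_rev, mul_inv_rev, h.Jinv]; group
      rw [q1]
      calc J * (l * (J * l⁻¹ * J)) * J = (J * l * J) * l⁻¹ * (J * J) := by group
        _ = _ := by rw [hJJ, mul_one]
  have hu : l e = e := by
    rw [hPu] at hcl
    apply h.D_inj
    calc D L J (l e) = D L J (l e) * (D L J e * D L J e) := by rw [h.D_sq, mul_one]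
      _ = (D L J (l e) * D L J e) * D L J e := by group
      _ = D L J e := by rw [hcl, one_mul]
  rw [← ht]
  have q1 : L b (l e) = t b := by
    rw [hl, Perm.mul_apply, h.Le, apply_inv']
  rw [← q1, hu, h.Le]

end AL

end ALoop
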